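import Mathlib

/-!
# Subspace lattices over division rings and over fields (MP_332034_al, Q1)

A left vector space `V` over a division ring `D` is a vector space over the centre `F` of `D`, which
is a field.  Every `D`-subspace of `V` is an `F`-subspace, and intersections and sums of `D`-subspaces
are the same when they are computed in the lattice of `F`-subspaces.  So the lattice of all
`D`-subspaces of `V` is a sublattice of the lattice of all `F`-subspaces of `V`, and the lattices which
embed into subspace lattices of skew vector spaces are exactly the lattices which embed into
subspace lattices of vector spaces over fields.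
-/

set_option autoImplicit false

universe u v w

namespace Pool.Agent.Results.MP_332034_al.RestrictToCentre

/-- The lattice `L` embeds into the lattice `M`: there is an injective map from `L` to `M` which
preserves binary joins and binary meets. -/
def Embeds (L : Type u) (M : Type v) [Lattice L] [Lattice M] : Prop :=
  ∃ f : L → M, Function.Injective f ∧ (∀ x y, f (x ⊔ y) = f x ⊔ f y) ∧
    ∀ x y, f (x ⊓ y) = f x ⊓ f y

/-- **Skew vector spaces and vector spaces have the same sublattices.**
(1) For every division ring `D` and every left `D`-vector space `V` the lattice of the `D`-subspaces
of `V` embeds into the lattice of the subspaces of `V` over the centre of `D`, which is a field.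
(2) A lattice `L` embeds into the subspace lattice of some left vector space over some division ring
if and only if it embeds into the subspace lattice of some vector space over some field. -/
theorem result :
    (∀ (D : Type v) [DivisionRing D] (V : Type w) [AddCommGroup V] [Module D V],
      Embeds (Submodule D V) (Submodule (Subring.center D) V)) ∧
    ∀ (L : Type u) [Lattice L],
      (∃ (D : Type v) (_ : DivisionRing D) (V : Type w) (_ : AddCommGroup V) (_ : Module D V),
        Embeds L (Submodule D V)) ↔
      ∃ (F : Type v) (_ : Field F) (W : Type w) (_ : AddCommGroup W) (_ : Module F W),
        Embeds L (Submodule F W) := by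
  have key : ∀ (D : Type v) [DivisionRing D] (V : Type w) [AddCommGroup V] [Module D V],
      Embeds (Submodule D V) (Submodule (Subring.center D) V) := by
    intro D _ V _ _
    refine ⟨Submodule.restrictScalars (Subring.center D),
      Submodule.restrictScalars_injective _ _ _, fun x y => ?_, fun x y => ?_⟩
    · exact map_sup (Submodule.restrictScalarsLatticeHom (Subring.center D) D V) x y
    · exact map_inf (Submodule.restrictScalarsLatticeHom (Subring.center D) D V) x y
  refine ⟨key, fun L _ => ⟨?_, ?_⟩⟩
  · rintro ⟨D, _, V, _, _, f, hf, hsup, hinf⟩
    obtain ⟨g, hg, gsup, ginf⟩ := key D V
    exact ⟨Subring.center D, inferInstance, V, inferInstance, inferInstance, fun x => g (f x),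
      hg.comp hf, fun x y => by simp only [hsup, gsup], fun x y => by simp only [hinf, ginf]⟩
  · rintro ⟨F, _, W, _, _, h⟩
    exact ⟨F, inferInstance, W, inferInstance, inferInstance, h⟩

end Pool.Agent.Results.MP_332034_al.RestrictToCentre
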